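import Pool.Agent.Lib.MP_349b57_lc.Main

set_option autoImplicit false

namespace Pool.Agent.GammaZero

open Finset

variable {O : Set (ℕ →. ℕ)}

theorem ci_rank {Sel : ℕ → Prop} (hSel : DI O Sel) : CI O (rank Sel) := by
  classical
  have h1 : DI O (fun p : ℕ × ℕ => 4 ^ Nat.log 4 p.1 ≤ p.2 ∧ Sel p.2) :=
    DI.and (DI.le (CI.pow (CI.const 4) (CI.log (by norm_num) (CI.of_computable Computable.fst)))
      (CI.of_computable Computable.snd)) (hSel.comp_computable Computable.snd)
  have h2 := CI.count h1 (b := fun n : ℕ => n) (CI.of_computable Computable.id)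
  have h3 : rank Sel = (fun a => ((Finset.range a).filter
      (fun k => 4 ^ Nat.log 4 a ≤ k ∧ Sel k)).card) := by
    funext n
    unfold rank
    exact congrArg Finset.card (Finset.ext fun m => by simp)
  rw [h3]
  exact h2

theorem ci_tau : CI O tau := by
  have := CI.add (CI.log (O := O) (α := ℕ) (b := 4) (by norm_num)
    (CI.log (b := 2) (by norm_num) (CI.of_computable Computable.id))) (CI.const 1)
  exact this

theorem ci_seg : CI O seg := by
  have h1 := CI.log (O := O) (α := ℕ) (b := 2) (by norm_num) (CI.of_computable Computable.id)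
  have := CI.div (CI.tsub h1 (CI.pow (CI.const 4) (CI.tsub ci_tau (CI.const 1))))
    (CI.pow (CI.const 2) (CI.tsub ci_tau (CI.const 2)))
  exact this

theorem di_YP {Sel : ℕ → Prop} {S : ℕ → ℕ → Prop} (hSel : DI O Sel)
    (hS : DI O (fun p : ℕ × ℕ => S p.1 p.2)) : DI O (YP Sel S) := by
  have htau : CI O (fun p : ℕ × ℕ => tau p.1) := ci_tau.comp_computable Computable.fst
  have hseg : CI O (fun p : ℕ × ℕ => seg p.1) := ci_seg.comp_computable Computable.fst
  have hn : CI O (fun p : ℕ × ℕ => p.2) := CI.of_computable Computable.snd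
  have hrank : CI O (fun p : ℕ × ℕ => rank Sel p.2) := (ci_rank hSel).comp_computable Computable.snd
  have h1 : DI O (fun p : ℕ × ℕ => 4 ^ tau p.1 ≤ p.2 ∧ Sel p.2 ∧ rank Sel p.2 = seg p.1 ∧ S p.2 p.1) :=
    DI.and (DI.le (CI.pow (CI.const 4) htau) hn) (DI.and (hSel.comp_computable Computable.snd)
      (DI.and (DI.eq hrank hseg) (hS.comp_computable (Computable.snd.pair Computable.fst))))
  exact DI.bex h1 (b := fun x => 4 ^ (tau x + 1)) (CI.pow (CI.const 4) (CI.add ci_tau (CI.const 1)))

theorem ci_of_computable_bool {C : ℕ → Bool} (hC : Computable C) :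
    CI O (fun n => if C n then 1 else 0) := by
  apply CI.of_computable
  have : Computable (fun n => bif C n then 1 else 0) :=
    Computable.cond hC (Computable.const 1) (Computable.const 0)
  refine this.of_eq ?_
  intro n
  cases C n <;> rfl

/-- code of the initial segment of a set -/
def code (C : ℕ → Bool) (N : ℕ) : ℕ := enc (fun n => if C n then 1 else 0) N

theorem code_lt (C : ℕ → Bool) (N : ℕ) : code C N < 2 ^ N := enc_lt _ _

theorem code_mod (C : ℕ → Bool) {M N : ℕ} (h : M ≤ N) : code C N % 2 ^ M = code C M := enc_mod _ h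

theorem bt_code (C : ℕ → Bool) {N q : ℕ} (h : q < N) : bt (code C N) q = if C q then 1 else 0 := by
  unfold code
  rw [bt_enc _ h]
  split_ifs <;> rfl

theorem ci_code {C : ℕ → Bool} (hC : Computable C) : CI O (code C) := by
  unfold code enc
  have h1 : CI O (fun p : ℕ × ℕ => ((if C p.2 then 1 else 0) % 2) * 2 ^ p.2) :=
    CI.mul (CI.mod ((ci_of_computable_bool hC).comp_computable Computable.snd) (CI.const 2))
      (CI.pow (CI.const 2) (CI.of_computable Computable.snd))
  exact CI.bsum h1 (b := fun n : ℕ => n) (CI.of_computable Computable.id)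

/-- the first half of level `n`, cut to the window of its group -/
def fA (f : ℕ → ℕ) (n : ℕ) : ℕ := f n % 2 ^ (2 ^ (4 ^ Nat.log 4 n))

theorem ci_fA {f : ℕ → ℕ} (hf : CI O f) : CI O (fA f) := by
  unfold fA
  exact CI.mod hf (CI.pow (CI.const 2) (CI.pow (CI.const 2) (CI.pow (CI.const 4)
    (CI.log (by norm_num) (CI.of_computable Computable.id)))))

/-- number of levels in the group of index `τ` whose first half equals `v` -/
def votes (f : ℕ → ℕ) (τ v : ℕ) : ℕ :=
  ((range (4 ^ (τ + 1))).filter (fun m => 4 ^ τ ≤ m ∧ fA f m = v)).card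

def SelA (f : ℕ → ℕ) (n : ℕ) : Prop :=
  2 ^ (Nat.log 4 n + 1) ≤ votes f (Nat.log 4 n) (fA f n) ∧
    ∀ m < n, 4 ^ Nat.log 4 n ≤ m → fA f m ≠ fA f n

theorem di_SelA {f : ℕ → ℕ} (hf : CI O f) : DI O (SelA f) := by
  have hlog : CI O (fun n : ℕ => Nat.log 4 n) := CI.log (by norm_num) (CI.of_computable Computable.id)
  have hlog1 : CI O (fun p : ℕ × ℕ => Nat.log 4 p.1) := hlog.comp_computable Computable.fst
  have hA1 : CI O (fun p : ℕ × ℕ => fA f p.1) := (ci_fA hf).comp_computable Computable.fst
  have hA2 : CI O (fun p : ℕ × ℕ => fA f p.2) := (ci_fA hf).comp_computable Computable.snd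
  have h2 : CI O (fun p : ℕ × ℕ => p.2) := CI.of_computable Computable.snd
  have hp : DI O (fun p : ℕ × ℕ => 4 ^ Nat.log 4 p.1 ≤ p.2 ∧ fA f p.2 = fA f p.1) :=
    DI.and (DI.le (CI.pow (CI.const 4) hlog1) h2) (DI.eq hA2 hA1)
  have hv : CI O (fun n => votes f (Nat.log 4 n) (fA f n)) := by
    unfold votes
    exact CI.count hp (b := fun n => 4 ^ (Nat.log 4 n + 1))
      (CI.pow (CI.const 4) (CI.add hlog (CI.const 1)))
  have hq : DI O (fun p : ℕ × ℕ => 4 ^ Nat.log 4 p.1 ≤ p.2 → fA f p.2 ≠ fA f p.1) :=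
    DI.imp (DI.le (CI.pow (CI.const 4) hlog1) h2) (DI.not (DI.eq hA2 hA1))
  exact DI.and (DI.le (CI.pow (CI.const 2) (CI.add hlog (CI.const 1))) hv)
    (DI.ball hq (b := fun n : ℕ => n) (CI.of_computable Computable.id))

theorem rank_le_count {Sel : ℕ → Prop} {n τ : ℕ} (hn : 4 ^ τ ≤ n) (hn2 : n < 4 ^ (τ + 1))
    (hSn : Sel n) (s : Finset ℕ) (hs : ∀ m, 4 ^ τ ≤ m → m < 4 ^ (τ + 1) → Sel m → m ∈ s) :
    rank Sel n < s.card := by
  classical
  unfold rank
  rw [log4_of_mem hn hn2]
  apply Finset.card_lt_card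
  rw [Finset.ssubset_iff_of_subset]
  · exact ⟨n, hs n hn hn2 hSn, by simp⟩
  · intro m hm
    simp only [Finset.mem_filter, Finset.mem_range] at hm
    exact hs m hm.2.1 (by omega) hm.2.2

theorem rankA {f : ℕ → ℕ} {n τ : ℕ} (hn : 4 ^ τ ≤ n) (hn2 : n < 4 ^ (τ + 1))
    (hSn : SelA f n) : rank (SelA f) n < 3 * 2 ^ τ := by
  classical
  set s : Finset ℕ := (range (4 ^ (τ + 1))).filter (fun m => 4 ^ τ ≤ m ∧ SelA f m) with hs
  have h1 : rank (SelA f) n < s.card := by
    apply rank_le_count hn hn2 hSn
    intro m h1 h2 h3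
    rw [hs]; simp [h1, h2, h3]
  -- the classes are disjoint and large
  set cls : ℕ → Finset ℕ := fun m => (range (4 ^ (τ + 1))).filter (fun k => 4 ^ τ ≤ k ∧ fA f k = fA f m)
    with hcls
  have hdisj : ∀ a ∈ s, ∀ b ∈ s, a ≠ b → Disjoint (cls a) (cls b) := by
    intro a ha b hb hab
    rw [Finset.disjoint_left]
    intro k hka hkb
    simp only [hcls, Finset.mem_filter, Finset.mem_range] at hka hkb
    have hfab : fA f a = fA f b := by rw [← hka.2.2, hkb.2.2]
    simp only [hs, Finset.mem_filter, Finset.mem_range] at ha hb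
    have hla := log4_of_mem ha.2.1 ha.1
    have hlb := log4_of_mem hb.2.1 hb.1
    rcases lt_or_gt_of_ne hab with hlt | hgt
    · exact hb.2.2.2 a hlt (by rw [hlb]; exact ha.2.1) hfab
    · exact ha.2.2.2 b hgt (by rw [hla]; exact hb.2.1) hfab.symm
  have hbig : ∀ a ∈ s, 2 ^ (τ + 1) ≤ (cls a).card := by
    intro a ha
    simp only [hs, Finset.mem_filter, Finset.mem_range] at ha
    have hla := log4_of_mem ha.2.1 ha.1
    have := ha.2.2.1
    rw [hla] at this
    exact this
  have hunion : (s.biUnion cls).card ≤ 3 * 4 ^ τ := by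
    have hsub : s.biUnion cls ⊆ Finset.Ico (4 ^ τ) (4 ^ (τ + 1)) := by
      intro k hk
      simp only [Finset.mem_biUnion, hcls, Finset.mem_filter, Finset.mem_range] at hk
      obtain ⟨a, _, hk1, hk2, _⟩ := hk
      simp [hk1, hk2]
    refine le_trans (Finset.card_le_card hsub) ?_
    rw [Nat.card_Ico, pow_succ]
    omega
  rw [Finset.card_biUnion hdisj] at hunion
  have h2 : s.card * 2 ^ (τ + 1) ≤ 3 * 4 ^ τ := by
    refine le_trans ?_ hunion
    rw [← smul_eq_mul]
    exact Finset.card_nsmul_le_sum _ _ _ hbig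
  have h4 : (4 : ℕ) ^ τ = 2 ^ τ * 2 ^ τ := by rw [← mul_pow]; norm_num
  rw [h4, pow_succ] at h2
  have hpos : 0 < 2 ^ τ := by positivity
  have h3 : s.card * 2 ≤ 3 * 2 ^ τ := by
    have : (s.card * 2) * 2 ^ τ ≤ (3 * 2 ^ τ) * 2 ^ τ := by
      calc (s.card * 2) * 2 ^ τ = s.card * (2 ^ τ * 2) := by ring
        _ ≤ 3 * (2 ^ τ * 2 ^ τ) := h2
        _ = _ := by ring
    exact Nat.le_of_mul_le_mul_right this hpos
  omega

theorem exists_of_ioe {f : ℕ → ℕ} (hf : CI O f)
    (hioe : ∀ g : ℕ → ℕ, Computable g → (∀ n, g n < 2 ^ (2 ^ (n + 1))) → ∀ N, ∃ n ≥ N, f n = g n) :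
    ∃ Y : ℕ → Bool, CI O (fun n => if Y n then 1 else 0) ∧
      ∀ C : ℕ → Bool, Computable C → Filter.liminf (dens Y C) Filter.atTop = 0 := by
  classical
  by_cases hA : ∀ C : ℕ → Bool, Computable C → ∀ T, ∃ τ ≥ T,
      2 ^ (τ + 1) ≤ votes f τ (code C (2 ^ (4 ^ τ)))
  · -- Case A: popular votes
    refine ⟨fun x => decide (YP (SelA f) (fun n x => bt (fA f n) x = 0) x), ?_, ?_⟩
    · have h1 : DI O (YP (SelA f) (fun n x => bt (fA f n) x = 0)) :=
        di_YP (di_SelA hf) (DI.eq (CI.bt ((ci_fA hf).comp_computable Computable.fst)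
          (CI.of_computable Computable.snd)) (CI.const 0))
      have h2 := h1.ci
      have h3 : (fun x => if decide (YP (SelA f) (fun n x => bt (fA f n) x = 0) x) = true then 1 else 0)
          = (fun x => if YP (SelA f) (fun n x => bt (fA f n) x = 0) x then 1 else 0) := by
        funext x
        simp only [decide_eq_true_eq]
      exact h3.symm ▸ h2
    · intro C hC
      apply liminf_of_levels (Sel := SelA f) (S := fun n x => bt (fA f n) x = 0)
      · intro x; simp
      · intro T
        obtain ⟨τ, hτ, hvotes⟩ := hA C hC T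
        -- the least voting level
        have hne : ∃ m, m < 4 ^ (τ + 1) ∧ 4 ^ τ ≤ m ∧ fA f m = code C (2 ^ (4 ^ τ)) := by
          have hpos : 0 < votes f τ (code C (2 ^ (4 ^ τ))) := lt_of_lt_of_le (by positivity) hvotes
          unfold votes at hpos
          rw [Finset.card_pos] at hpos
          obtain ⟨m, hm⟩ := hpos
          simp only [Finset.mem_filter, Finset.mem_range] at hm
          exact ⟨m, hm.1, hm.2.1, hm.2.2⟩
        obtain ⟨hn2, hn, hfn⟩ := Nat.find_spec hne
        have hmin := fun m (hm : m < Nat.find hne) => Nat.find_min hne hm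
        set n := Nat.find hne with hndef
        have hlog := log4_of_mem hn hn2
        have hSel : SelA f n := by
          refine ⟨?_, ?_⟩
          · rw [hlog, hfn]; exact hvotes
          · intro m hm hm2 heq
            rw [hlog] at hm2
            exact hmin m hm ⟨by omega, hm2, by rw [heq, hfn]⟩
        refine ⟨n, by rw [hlog]; exact hτ, hSel, ?_, ?_⟩
        · rw [hlog]; exact rankA hn hn2 hSel
        · rw [hlog]
          intro x hx
          rw [hfn, bt_code C hx]
          cases C x <;> simp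
  · -- Case B: a password
    push Not at hA
    obtain ⟨P, hP, T0, hT0⟩ := hA
    set Sel : ℕ → Prop := fun n => fA f n = code P (2 ^ (4 ^ Nat.log 4 n)) with hSeldef
    have hlogc : CI O (fun n : ℕ => 2 ^ (4 ^ Nat.log 4 n)) :=
      CI.pow (CI.const 2) (CI.pow (CI.const 4) (CI.log (by norm_num) (CI.of_computable Computable.id)))
    have hSel : DI O Sel := DI.eq (ci_fA hf) ((ci_code hP).comp hlogc)
    have hSc : DI O (fun p : ℕ × ℕ => bt (f p.1) (2 ^ p.1 + p.2) = 0) :=
      DI.eq (CI.bt (hf.comp_computable Computable.fst)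
        (CI.add (CI.pow (CI.const 2) (CI.of_computable Computable.fst))
          (CI.of_computable Computable.snd))) (CI.const 0)
    refine ⟨fun x => decide (YP Sel (fun n x => bt (f n) (2 ^ n + x) = 0) x), ?_, ?_⟩
    · have h1 : DI O (YP Sel (fun n x => bt (f n) (2 ^ n + x) = 0)) := di_YP hSel hSc
      have h2 := h1.ci
      have h3 : (fun x => if decide (YP Sel (fun n x => bt (f n) (2 ^ n + x) = 0) x) = true then 1 else 0)
          = (fun x => if YP Sel (fun n x => bt (f n) (2 ^ n + x) = 0) x then 1 else 0) := by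
        funext x
        simp only [decide_eq_true_eq]
      exact h3.symm ▸ h2
    · intro C hC
      apply liminf_of_levels (Sel := Sel) (S := fun n x => bt (f n) (2 ^ n + x) = 0)
      · intro x; simp
      · intro T
        set g : ℕ → ℕ := fun n => code P (2 ^ n) + 2 ^ (2 ^ n) * code C (2 ^ n) with hg
        have hgc : Computable g := by
          apply computable_of_CI
          have hp : CI ∅ (fun n : ℕ => 2 ^ n) := CI.pow (CI.const 2) (CI.of_computable Computable.id)
          exact CI.add ((ci_code hP).comp hp) (CI.mul (CI.pow (CI.const 2) hp) ((ci_code hC).comp hp))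
        have hglt : ∀ n, g n < 2 ^ (2 ^ (n + 1)) := by
          intro n
          have h1 := code_lt P (2 ^ n)
          have h2 := code_lt C (2 ^ n)
          have h3 : (2 : ℕ) ^ (2 ^ (n + 1)) = 2 ^ (2 ^ n) * 2 ^ (2 ^ n) := by
            rw [← pow_add]; congr 1; rw [pow_succ]; ring
          rw [h3]
          calc g n < 2 ^ (2 ^ n) + 2 ^ (2 ^ n) * code C (2 ^ n) := by
                simp only [hg]; omega
            _ = 2 ^ (2 ^ n) * (code C (2 ^ n) + 1) := by ring
            _ ≤ _ := Nat.mul_le_mul_left _ h2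
        obtain ⟨n, hn, hfg⟩ := hioe g hgc hglt (4 ^ (T + T0 + 1))
        have hn0 : n ≠ 0 := by
          have : 0 < 4 ^ (T + T0 + 1) := by positivity
          omega
        set τ := Nat.log 4 n with hτdef
        have hτ : T + T0 + 1 ≤ τ := (Nat.le_log_iff_pow_le (by norm_num) hn0).2 hn
        have hn1 : 4 ^ τ ≤ n := Nat.pow_log_le_self 4 hn0
        have hn2 : n < 4 ^ (τ + 1) := Nat.lt_pow_succ_log_self (by norm_num) n
        have hpp : 2 ^ (4 ^ τ) ≤ 2 ^ n := Nat.pow_le_pow_right (by norm_num) hn1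
        have hSn : Sel n := by
          simp only [hSeldef, fA]
          rw [← hτdef, hfg]
          simp only [hg]
          have h1 : (2 : ℕ) ^ (2 ^ n) * code C (2 ^ n) =
              2 ^ (2 ^ (4 ^ τ)) * (2 ^ (2 ^ n - 2 ^ (4 ^ τ)) * code C (2 ^ n)) := by
            rw [← mul_assoc, ← pow_add]
            congr 2
            omega
          rw [h1, Nat.add_mul_mod_self_left]
          exact code_mod P hpp
        refine ⟨n, by omega, hSn, ?_, ?_⟩
        · have h1 : rank Sel n < ((range (4 ^ (τ + 1))).filter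
              (fun m => 4 ^ τ ≤ m ∧ fA f m = code P (2 ^ (4 ^ τ)))).card := by
            apply rank_le_count hn1 hn2 hSn
            intro m hm1 hm2 hm3
            have hl := log4_of_mem hm1 hm2
            simp only [hSeldef] at hm3
            rw [hl] at hm3
            simp [hm1, hm2, hm3]
          have h2 := hT0 τ (by omega)
          unfold votes at h2
          have h3 : (2 : ℕ) ^ (τ + 1) = 2 * 2 ^ τ := by rw [pow_succ]; ring
          rw [← hτdef]
          omega
        · intro x hx
          have hx' : x < 2 ^ n := lt_of_lt_of_le hx hpp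
          have h1 : bt (f n) (2 ^ n + x) = bt (code C (2 ^ n)) x := by
            unfold bt
            rw [hfg]
            simp only [hg]
            rw [pow_add, ← Nat.div_div_eq_div_mul, Nat.add_mul_div_left _ _ (by positivity),
              Nat.div_eq_of_lt (code_lt P _), zero_add]
          rw [h1, bt_code C hx']
          cases C x <;> simp

end Pool.Agent.GammaZero
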