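import Pool.Agent.Lib.MP_349b57_lc.Comp

/-!
Existence (Gilbert–Varshamov counting) and computable selection of codes.
-/

set_option autoImplicit false

namespace Pool.Agent.GammaZero

open Finset

/-- the weight enumerator identity -/
theorem weight_sum (l : ℕ) (w : Fin l → Bool) :
    ∑ v : Fin l → Bool, ∏ i, (if v i = w i then 15 else 1) = 16 ^ l := by
  have h := Finset.prod_univ_sum (fun _ : Fin l => (Finset.univ : Finset Bool))
    (fun i b => if b = w i then 15 else 1)
  rw [Fintype.piFinset_univ] at h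
  rw [← h]
  have : ∀ i, ∑ b : Bool, (if b = w i then 15 else 1) = 16 := by
    intro i
    cases w i <;> simp
  rw [Finset.prod_congr rfl (fun i _ => this i)]
  simp

theorem ball_card (l k : ℕ) (hk : k ≤ l) (w : Fin l → Bool) :
    (univ.filter (fun v : Fin l → Bool => (univ.filter (fun i => v i ≠ w i)).card < k)).card
      * 15 ^ (l - k) ≤ 16 ^ l := by
  rw [← weight_sum l w, ← smul_eq_mul]
  refine le_trans (Finset.card_nsmul_le_sum _ (fun v => ∏ i, (if v i = w i then 15 else 1)) _ ?_)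
    (Finset.sum_le_sum_of_subset (Finset.filter_subset _ _))
  intro v hv
  simp only [Finset.mem_filter, Finset.mem_univ, true_and] at hv
  rw [Finset.prod_ite]
  simp only [Finset.prod_const, one_pow, mul_one]
  apply Nat.pow_le_pow_right (by norm_num)
  have := Finset.card_filter_add_card_filter_not (s := (univ : Finset (Fin l))) (fun i => v i = w i)
  simp only [Finset.card_univ, Fintype.card_fin] at this
  simp only [ne_eq] at hv
  omega

theorem exists_words (k : ℕ) (hk : 1 ≤ k) (m : ℕ) (hm : m ≤ 2 ^ (2 * k)) :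
    ∃ w : ℕ → (Fin (16 * k) → Bool), ∀ i < m, ∀ j < i,
      k ≤ (univ.filter (fun q => w i q ≠ w j q)).card := by
  induction m with
  | zero => exact ⟨fun _ _ => false, fun i hi => absurd hi (Nat.not_lt_zero _)⟩
  | succ m ih =>
    obtain ⟨w, hw⟩ := ih (by omega)
    have hex : ∃ v : Fin (16 * k) → Bool, ∀ j < m,
        k ≤ (univ.filter (fun q => v q ≠ w j q)).card := by
      by_contra hcon
      push Not at hcon
      have hcover : (univ : Finset (Fin (16 * k) → Bool)) ⊆ (range m).biUnion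
          (fun j => univ.filter (fun v : Fin (16 * k) → Bool =>
            (univ.filter (fun i => v i ≠ w j i)).card < k)) := by
        intro v _
        obtain ⟨j, hj, hv⟩ := hcon v
        simp only [Finset.mem_biUnion, Finset.mem_range, Finset.mem_filter, Finset.mem_univ,
          true_and]
        exact ⟨j, hj, hv⟩
      have h1 := Finset.card_le_card hcover
      have h2 : ((range m).biUnion
          (fun j => univ.filter (fun v : Fin (16 * k) → Bool =>
            (univ.filter (fun i => v i ≠ w j i)).card < k))).card * 15 ^ (16 * k - k)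
            ≤ m * 16 ^ (16 * k) := by
        refine le_trans (Nat.mul_le_mul_right _ Finset.card_biUnion_le) ?_
        rw [Finset.sum_mul]
        refine le_trans (Finset.sum_le_sum (fun j _ => ball_card (16 * k) k (by omega) (w j))) ?_
        simp
      have h3 : (univ : Finset (Fin (16 * k) → Bool)).card = 2 ^ (16 * k) := by
        simp
      rw [h3] at h1
      have h4 : 2 ^ (16 * k) * 15 ^ (15 * k) ≤ m * 16 ^ (16 * k) := by
        have : 16 * k - k = 15 * k := by omega
        rw [this] at h2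
        exact le_trans (Nat.mul_le_mul_right _ h1) h2
      have h5 : m * 16 ^ (16 * k) < 2 ^ (2 * k) * 16 ^ (16 * k) := by
        apply Nat.mul_lt_mul_of_pos_right (by omega)
        positivity
      have h6 : 2 ^ (2 * k) * 16 ^ (16 * k) ≤ 2 ^ (16 * k) * 15 ^ (15 * k) := by
        rw [pow_mul, pow_mul, pow_mul, pow_mul, ← mul_pow, ← mul_pow]
        apply Nat.pow_le_pow_left
        norm_num
      omega
    obtain ⟨v, hv⟩ := hex
    refine ⟨Function.update w m v, ?_⟩
    intro i hi j hj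
    by_cases him : i = m
    · subst him
      rw [Function.update_self, Function.update_of_ne (by omega)]
      exact hv j hj
    · rw [Function.update_of_ne him, Function.update_of_ne (by omega)]
      exact hw i (by omega) j hj

/-- bits of a natural number -/
def bt (c q : ℕ) : ℕ := c / 2 ^ q % 2

/-- number whose bits are `b` below `N` -/
def enc (b : ℕ → ℕ) (N : ℕ) : ℕ := ∑ q ∈ range N, (b q % 2) * 2 ^ q

theorem enc_lt (b : ℕ → ℕ) (N : ℕ) : enc b N < 2 ^ N := by
  induction N with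
  | zero => simp [enc]
  | succ n ih =>
    unfold enc at *
    rw [Finset.sum_range_succ, pow_succ]
    have : b n % 2 < 2 := Nat.mod_lt _ (by norm_num)
    have h2 : (b n % 2) * 2 ^ n ≤ 1 * 2 ^ n := Nat.mul_le_mul_right _ (by omega)
    omega

theorem enc_mod (b : ℕ → ℕ) {M N : ℕ} (h : M ≤ N) : enc b N % 2 ^ M = enc b M := by
  induction N, h using Nat.le_induction with
  | base => exact Nat.mod_eq_of_lt (enc_lt b M)
  | succ n hn ih =>
    have : enc b (n + 1) = enc b n + (b n % 2) * 2 ^ n := by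
      unfold enc; rw [Finset.sum_range_succ]
    rw [this]
    obtain ⟨d, rfl⟩ := Nat.exists_eq_add_of_le hn
    have h2 : (b (M + d) % 2) * 2 ^ (M + d) = 2 ^ M * ((b (M + d) % 2) * 2 ^ d) := by
      rw [pow_add]; ring
    rw [h2, Nat.add_mul_mod_self_left]
    exact ih

theorem bt_enc (b : ℕ → ℕ) {N q : ℕ} (h : q < N) : bt (enc b N) q = b q % 2 := by
  unfold bt
  have h1 : enc b N / 2 ^ q % 2 = enc b N % 2 ^ (q + 1) / 2 ^ q := by
    rw [pow_succ, Nat.mod_mul_right_div_self]
  rw [h1, enc_mod b (show q + 1 ≤ N from h)]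
  have : enc b (q + 1) = enc b q + (b q % 2) * 2 ^ q := by
    unfold enc; rw [Finset.sum_range_succ]
  rw [this, Nat.add_mul_div_right _ _ (by positivity), Nat.div_eq_of_lt (enc_lt b q), zero_add]

theorem bt_lt (c q : ℕ) : bt c q < 2 := Nat.mod_lt _ (by norm_num)

/-- the code property at level `n` -/
def CodeProp (n c : ℕ) : Prop :=
  ∀ i < 2 ^ (2 ^ (n + 1)), ∀ j < i,
    2 ^ n ≤ ((range (2 ^ (n + 4))).filter
      (fun q => bt c (i * 2 ^ (n + 4) + q) ≠ bt c (j * 2 ^ (n + 4) + q))).card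

theorem exists_code (n : ℕ) : ∃ c, CodeProp n c := by
  obtain ⟨w, hw⟩ := exists_words (2 ^ n) Nat.one_le_two_pow (2 ^ (2 * 2 ^ n)) le_rfl
  have hl : 16 * 2 ^ n = 2 ^ (n + 4) := by rw [pow_add]; ring
  have hm : 2 * 2 ^ n = 2 ^ (n + 1) := by rw [pow_succ]; ring
  rw [hm] at hw
  set l := 2 ^ (n + 4) with hl'
  have hlpos : 0 < l := by positivity
  let b : ℕ → ℕ := fun x => if h : x % l < 16 * 2 ^ n then (if w (x / l) ⟨x % l, h⟩ then 1 else 0) else 0
  refine ⟨enc b (2 ^ (2 ^ (n + 1)) * l), ?_⟩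
  intro i hi j hj
  refine le_trans (hw i hi j hj) ?_
  have hb : ∀ i < 2 ^ (2 ^ (n + 1)), ∀ q (hq : q < 16 * 2 ^ n),
      bt (enc b (2 ^ (2 ^ (n + 1)) * l)) (i * l + q) = if w i ⟨q, hq⟩ then 1 else 0 := by
    intro i hi q hq
    have hq' : q < l := by omega
    have h1 : i * l + q < 2 ^ (2 ^ (n + 1)) * l := by
      calc i * l + q < i * l + l := by omega
        _ = (i + 1) * l := by ring
        _ ≤ _ := Nat.mul_le_mul_right _ hi
    rw [bt_enc _ h1]
    have h2 : (i * l + q) % l = q := by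
      rw [Nat.mul_add_mod_self_right]; exact Nat.mod_eq_of_lt hq'
    have h3 : (i * l + q) / l = i := by
      rw [mul_comm, Nat.mul_add_div hlpos, Nat.div_eq_of_lt hq', add_zero]
    simp only [b]
    simp only [h2, h3, hq, dif_pos]
    split_ifs <;> rfl
  refine Finset.card_le_card_of_injOn (fun q => q.val) ?_ ?_
  · intro q hq
    simp only [Finset.coe_filter, Finset.mem_univ, true_and, Set.mem_ofPred_eq, Finset.mem_range] at hq ⊢
    refine ⟨?_, ?_⟩
    · have := q.2; omega
    · rw [hb i hi q.val q.2, hb j (by omega) q.val q.2]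
      intro h
      apply hq
      cases h1 : w i q <;> cases h2 : w j q <;> simp_all
  · intro a _ b _ h
    exact Fin.ext h

theorem choice {O : Set (ℕ →. ℕ)} {p : ℕ × ℕ → Prop} (hp : DI O p) (hex : ∀ a, ∃ n, p (a, n)) :
    ∃ c : ℕ → ℕ, CI O c ∧ ∀ a, p (a, c a) := by
  classical
  obtain ⟨g, ⟨F, hF, hFe⟩, h1, h2⟩ := hp
  refine ⟨fun a => Nat.find (hex a), ⟨fun a => Nat.find (hex a), ?_, fun _ => rfl⟩,
    fun a => Nat.find_spec (hex a)⟩
  have hF' : Nat.RecursiveIn O (fun n => Part.some (1 - F n)) :=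
    rin_comp (F := fun x => 1 - x)
      (rin_of_computable (Primrec.nat_sub.to_comp.comp (Computable.const 1) Computable.id)) hF
  refine (Nat.RecursiveIn.rfind hF').of_eq ?_
  intro a
  have hval : ∀ n, F (Nat.pair a n) = g (a, n) := fun n => hFe (a, n)
  refine Part.eq_some_iff.2 (Nat.mem_rfind.2 ⟨?_, ?_⟩)
  · have := Nat.find_spec (hex a)
    simp only [Part.map_eq_map, Part.map_some, Part.mem_some_iff]
    rw [hval, h1 _ this]
    simp
  · intro m hm
    have := Nat.find_min (hex a) hm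
    simp only [Part.map_eq_map, Part.map_some, Part.mem_some_iff]
    rw [hval, h2 _ this]
    simp

theorem computable_of_CI {f : ℕ → ℕ} (hf : CI ∅ f) : Computable f := by
  obtain ⟨F, hF, hFe⟩ := hf
  have h1 : Nat.Partrec (fun n => Part.some (F n)) :=
    Nat.RecursiveIn.partrec_of_oracle (by simp) hF
  have h2 : f = F := by
    funext a
    exact (hFe a).symm
  rw [h2]
  exact Partrec.nat_iff.2 h1

theorem CI.bt {O : Set (ℕ →. ℕ)} {α : Type} [Primcodable α] {f g : α → ℕ} (hf : CI O f) (hg : CI O g) :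
    CI O (fun a => bt (f a) (g a)) :=
  CI.mod (CI.div hf (CI.pow (CI.const 2) hg)) (CI.const 2)

theorem di_codeProp : DI ∅ (fun p : ℕ × ℕ => CodeProp p.1 p.2) := by
  classical
  -- environment: ((((n, c), i), j), q)
  have hn3 : CI ∅ (fun p : (((ℕ × ℕ) × ℕ) × ℕ) × ℕ => p.1.1.1.1) :=
    CI.of_computable (Computable.fst.comp (Computable.fst.comp (Computable.fst.comp Computable.fst)))
  have hc3 : CI ∅ (fun p : (((ℕ × ℕ) × ℕ) × ℕ) × ℕ => p.1.1.1.2) :=
    CI.of_computable (Computable.snd.comp (Computable.fst.comp (Computable.fst.comp Computable.fst)))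
  have hi3 : CI ∅ (fun p : (((ℕ × ℕ) × ℕ) × ℕ) × ℕ => p.1.1.2) :=
    CI.of_computable (Computable.snd.comp (Computable.fst.comp Computable.fst))
  have hj3 : CI ∅ (fun p : (((ℕ × ℕ) × ℕ) × ℕ) × ℕ => p.1.2) :=
    CI.of_computable (Computable.snd.comp Computable.fst)
  have hq3 : CI ∅ (fun p : (((ℕ × ℕ) × ℕ) × ℕ) × ℕ => p.2) :=
    CI.of_computable Computable.snd
  have hl3 := CI.pow (CI.const 2) (CI.add hn3 (CI.const 4))
  have h1 : DI ∅ (fun p : (((ℕ × ℕ) × ℕ) × ℕ) × ℕ =>
      bt p.1.1.1.2 (p.1.1.2 * 2 ^ (p.1.1.1.1 + 4) + p.2) ≠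
      bt p.1.1.1.2 (p.1.2 * 2 ^ (p.1.1.1.1 + 4) + p.2)) :=
    DI.not (DI.eq (CI.bt hc3 (CI.add (CI.mul hi3 hl3) hq3)) (CI.bt hc3 (CI.add (CI.mul hj3 hl3) hq3)))
  have hn2 : CI ∅ (fun p : ((ℕ × ℕ) × ℕ) × ℕ => p.1.1.1) :=
    CI.of_computable (Computable.fst.comp (Computable.fst.comp Computable.fst))
  have h2 := CI.count h1 (CI.pow (CI.const 2) (CI.add hn2 (CI.const 4)))
  have h3 : DI ∅ (fun p : ((ℕ × ℕ) × ℕ) × ℕ => 2 ^ p.1.1.1 ≤ ((range (2 ^ (p.1.1.1 + 4))).filter
      (fun q => bt p.1.1.2 (p.1.2 * 2 ^ (p.1.1.1 + 4) + q) ≠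
        bt p.1.1.2 (p.2 * 2 ^ (p.1.1.1 + 4) + q))).card) :=
    DI.le (CI.pow (CI.const 2) hn2) h2
  have h4 := DI.ball h3 (b := fun p : (ℕ × ℕ) × ℕ => p.2) (CI.of_computable Computable.snd)
  have h5 := DI.ball h4 (b := fun p : ℕ × ℕ => 2 ^ (2 ^ (p.1 + 1)))
    (CI.pow (CI.const 2) (CI.pow (CI.const 2) (CI.add (CI.of_computable Computable.fst) (CI.const 1))))
  exact h5

theorem exists_computable_code : ∃ cd : ℕ → ℕ, Computable cd ∧ ∀ n, CodeProp n (cd n) := by
  obtain ⟨c, hc, h⟩ := choice di_codeProp exists_code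
  exact ⟨c, computable_of_CI hc, h⟩

end Pool.Agent.GammaZero
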