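import Mathlib

/-!
Relative computability calculus for total functions into the naturals.
-/

set_option autoImplicit false

namespace Pool.Agent.GammaZero

open Encodable

/-- `f : α → ℕ` is computable (on encodings) from the oracle set `O`. -/
def CI (O : Set (ℕ →. ℕ)) {α : Type} [Primcodable α] (f : α → ℕ) : Prop :=
  ∃ F : ℕ → ℕ, Nat.RecursiveIn O (fun n => Part.some (F n)) ∧ ∀ a, F (encode a) = f a

variable {O : Set (ℕ →. ℕ)} {α β : Type} [Primcodable α] [Primcodable β]

theorem rin_comp {F G : ℕ → ℕ} (hF : Nat.RecursiveIn O (fun n => Part.some (F n)))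
    (hG : Nat.RecursiveIn O (fun n => Part.some (G n))) :
    Nat.RecursiveIn O (fun n => Part.some (F (G n))) := by
  refine (Nat.RecursiveIn.comp hF hG).of_eq ?_
  intro n
  simp

theorem rin_pair {F G : ℕ → ℕ} (hF : Nat.RecursiveIn O (fun n => Part.some (F n)))
    (hG : Nat.RecursiveIn O (fun n => Part.some (G n))) :
    Nat.RecursiveIn O (fun n => Part.some (Nat.pair (F n) (G n))) := by
  refine (Nat.RecursiveIn.pair hF hG).of_eq ?_
  intro n
  simp [Seq.seq]

theorem rin_of_computable {F : ℕ → ℕ} (hF : Computable F) :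
    Nat.RecursiveIn O (fun n => Part.some (F n)) := by
  have h : Nat.Partrec (fun n => Part.some (F n)) := Partrec.nat_iff.1 hF
  exact h.recursiveIn

theorem CI.of_computable {f : α → ℕ} (hf : Computable f) : CI O f := by
  refine ⟨fun n => ((decode n : Option α).map f).getD 0, rin_of_computable ?_, ?_⟩
  · have h1 : Computable (fun n : ℕ => (decode n : Option α)) := Computable.decode
    have h2 : Computable (fun n : ℕ => ((decode n : Option α).map f)) :=
      Computable.option_map h1 (hf.comp Computable.snd).to₂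
    exact Computable.option_getD h2 (Computable.const 0)
  · intro a
    simp

theorem CI.comp_computable {f : β → ℕ} {g : α → β} (hf : CI O f) (hg : Computable g) :
    CI O (fun a => f (g a)) := by
  obtain ⟨F, hF, hFe⟩ := hf
  refine ⟨fun n => F (((decode n : Option α).map (fun a => encode (g a))).getD 0),
    rin_comp hF (rin_of_computable ?_), ?_⟩
  · have h1 : Computable (fun n : ℕ => (decode n : Option α)) := Computable.decode
    have h2 : Computable (fun n : ℕ => ((decode n : Option α).map (fun a => encode (g a)))) :=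
      Computable.option_map h1 ((Computable.encode.comp hg).comp Computable.snd).to₂
    exact Computable.option_getD h2 (Computable.const 0)
  · intro a
    simp [hFe]

theorem CI.comp {f : ℕ → ℕ} {g : α → ℕ} (hf : CI O f) (hg : CI O g) :
    CI O (fun a => f (g a)) := by
  obtain ⟨F, hF, hFe⟩ := hf
  obtain ⟨G, hG, hGe⟩ := hg
  refine ⟨fun n => F (G n), rin_comp hF hG, ?_⟩
  intro a
  show F (G (encode a)) = f (g a)
  rw [hGe]
  exact hFe (g a)

theorem CI.sub {f : α × ℕ → ℕ} {g : α → ℕ} (hf : CI O f) (hg : CI O g) :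
    CI O (fun a => f (a, g a)) := by
  obtain ⟨F, hF, hFe⟩ := hf
  obtain ⟨G, hG, hGe⟩ := hg
  refine ⟨fun n => F (Nat.pair n (G n)), rin_comp hF (rin_pair (rin_of_computable Computable.id) hG), ?_⟩
  intro a
  show F (Nat.pair (encode a) (G (encode a))) = f (a, g a)
  rw [hGe]
  exact hFe (a, g a)

theorem CI.comp₂ {h : ℕ → ℕ → ℕ} (hh : Computable₂ h) {f g : α → ℕ} (hf : CI O f) (hg : CI O g) :
    CI O (fun a => h (f a) (g a)) := by
  obtain ⟨F, hF, hFe⟩ := hf
  obtain ⟨G, hG, hGe⟩ := hg
  refine ⟨fun n => (fun p : ℕ => h p.unpair.1 p.unpair.2) (Nat.pair (F n) (G n)),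
    rin_comp (rin_of_computable ?_) (rin_pair hF hG), ?_⟩
  · exact hh.comp (Computable.fst.comp Computable.unpair) (Computable.snd.comp Computable.unpair)
  · intro a
    simp [hFe, hGe]

theorem CI.const (c : ℕ) : CI O (fun _ : α => c) := CI.of_computable (Computable.const c)

theorem CI.add {f g : α → ℕ} (hf : CI O f) (hg : CI O g) : CI O (fun a => f a + g a) :=
  CI.comp₂ (h := fun x y => x + y) Primrec.nat_add.to_comp hf hg

theorem CI.mul {f g : α → ℕ} (hf : CI O f) (hg : CI O g) : CI O (fun a => f a * g a) :=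
  CI.comp₂ (h := fun x y => x * y) Primrec.nat_mul.to_comp hf hg

theorem CI.tsub {f g : α → ℕ} (hf : CI O f) (hg : CI O g) : CI O (fun a => f a - g a) :=
  CI.comp₂ (h := fun x y => x - y) Primrec.nat_sub.to_comp hf hg

theorem CI.div {f g : α → ℕ} (hf : CI O f) (hg : CI O g) : CI O (fun a => f a / g a) :=
  CI.comp₂ (h := fun x y => x / y) Primrec.nat_div.to_comp hf hg

theorem CI.mod {f g : α → ℕ} (hf : CI O f) (hg : CI O g) : CI O (fun a => f a % g a) :=
  CI.comp₂ (h := fun x y => x % y) Primrec.nat_mod.to_comp hf hg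

theorem primrec_pow : Primrec₂ (fun x y : ℕ => x ^ y) :=
  Primrec₂.unpaired'.1 Nat.Primrec.pow

theorem CI.pow {f g : α → ℕ} (hf : CI O f) (hg : CI O g) : CI O (fun a => f a ^ g a) :=
  CI.comp₂ (h := fun x y => x ^ y) primrec_pow.to_comp hf hg

/-- Primitive recursion. -/
theorem CI.natRec {f : α → ℕ} {h : α × ℕ × ℕ → ℕ} (hf : CI O f) (hh : CI O h) :
    CI O (fun p : α × ℕ => Nat.rec (f p.1) (fun y ih => h (p.1, y, ih)) p.2 : α × ℕ → ℕ) := by
  obtain ⟨F, hF, hFe⟩ := hf
  obtain ⟨H, hH, hHe⟩ := hh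
  refine ⟨fun p => Nat.rec (F p.unpair.1)
    (fun y ih => H (Nat.pair p.unpair.1 (Nat.pair y ih))) p.unpair.2, ?_, ?_⟩
  · refine (Nat.RecursiveIn.prec hF hH).of_eq ?_
    intro p
    simp only
    induction p.unpair.2 with
    | zero => rfl
    | succ n ih =>
      simp only [ih]
      simp
  · rintro ⟨a, n⟩
    simp only [encode_prod_val, Nat.unpair_pair, encode_nat]
    induction n with
    | zero => exact hFe a
    | succ n ih =>
      simp only [ih]
      exact hHe (a, n, _)

theorem CI.bsum {g : α × ℕ → ℕ} {b : α → ℕ} (hg : CI O g) (hb : CI O b) :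
    CI O (fun a => ∑ k ∈ Finset.range (b a), g (a, k)) := by
  have h1 : CI O (fun p : α × ℕ × ℕ => p.2.2 + g (p.1, p.2.1)) := by
    refine CI.add (CI.of_computable ?_) (hg.comp_computable ?_)
    · exact Computable.snd.comp Computable.snd
    · exact Computable.fst.pair (Computable.fst.comp Computable.snd)
  have h2 := CI.natRec (CI.const (O := O) (α := α) 0) h1
  have h3 := CI.sub h2 hb
  have h4 : (fun a => ∑ k ∈ Finset.range (b a), g (a, k)) =
      (fun a => (Nat.rec 0 (fun y ih => ih + g (a, y)) (b a) : ℕ)) := by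
    funext a
    induction b a with
    | zero => simp
    | succ n ih => rw [Finset.sum_range_succ, ih]
  rw [h4]
  exact h3

/-- decidable predicates relative to `O` -/
def DI (O : Set (ℕ →. ℕ)) {α : Type} [Primcodable α] (p : α → Prop) : Prop :=
  ∃ g : α → ℕ, CI O g ∧ (∀ a, p a → g a = 1) ∧ (∀ a, ¬ p a → g a = 0)

theorem DI.ci {p : α → Prop} (h : DI O p) [DecidablePred p] :
    CI O (fun a => if p a then 1 else 0) := by
  obtain ⟨g, hg, h1, h2⟩ := h
  have : (fun a => if p a then 1 else 0) = g := by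
    funext a
    by_cases hp : p a
    · rw [if_pos hp, h1 a hp]
    · rw [if_neg hp, h2 a hp]
  rw [this]; exact hg

theorem DI.and {p q : α → Prop} (hp : DI O p) (hq : DI O q) : DI O (fun a => p a ∧ q a) := by
  obtain ⟨g, hg, h1, h2⟩ := hp
  obtain ⟨g', hg', h1', h2'⟩ := hq
  refine ⟨fun a => g a * g' a, hg.mul hg', ?_, ?_⟩
  · rintro a ⟨ha, hb⟩
    simp [h1 a ha, h1' a hb]
  · intro a hab
    by_cases ha : p a
    · have hb : ¬ q a := fun hb => hab ⟨ha, hb⟩
      simp [h2' a hb]
    · simp [h2 a ha]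

theorem DI.not {p : α → Prop} (hp : DI O p) : DI O (fun a => ¬ p a) := by
  obtain ⟨g, hg, h1, h2⟩ := hp
  refine ⟨fun a => 1 - g a, (CI.const 1).tsub hg, ?_, ?_⟩
  · intro a ha
    simp [h2 a ha]
  · intro a ha
    simp [h1 a (not_not.1 ha)]

theorem DI.le {f g : α → ℕ} (hf : CI O f) (hg : CI O g) : DI O (fun a => f a ≤ g a) := by
  refine ⟨fun a => if f a ≤ g a then 1 else 0, ?_, ?_, ?_⟩
  · refine CI.comp₂ (h := fun x y => if x ≤ y then 1 else 0) ?_ hf hg
    have : Primrec₂ (fun x y : ℕ => if x ≤ y then 1 else 0) :=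
      Primrec.ite Primrec.nat_le (Primrec.const 1) (Primrec.const 0)
    exact this.to_comp
  · intro a ha; simp [ha]
  · intro a ha; simp only [if_neg ha]

theorem DI.of_iff {p q : α → Prop} (hp : DI O p) (h : ∀ a, q a ↔ p a) : DI O q := by
  have : q = p := funext fun a => propext (h a)
  rw [this]; exact hp

theorem DI.lt {f g : α → ℕ} (hf : CI O f) (hg : CI O g) : DI O (fun a => f a < g a) :=
  (DI.le (hf.add (CI.const 1)) hg).of_iff (fun _ => Nat.lt_iff_add_one_le)

theorem DI.eq {f g : α → ℕ} (hf : CI O f) (hg : CI O g) : DI O (fun a => f a = g a) :=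
  ((DI.le hf hg).and (DI.le hg hf)).of_iff (fun _ => by omega)

theorem DI.comp_computable {p : β → Prop} {g : α → β} (hp : DI O p) (hg : Computable g) :
    DI O (fun a => p (g a)) := by
  obtain ⟨f, hf, h1, h2⟩ := hp
  exact ⟨fun a => f (g a), hf.comp_computable hg, fun a => h1 (g a), fun a => h2 (g a)⟩

/-- counting -/
theorem CI.count {p : α × ℕ → Prop} [DecidablePred p] {b : α → ℕ} (hp : DI O p) (hb : CI O b) :
    CI O (fun a => ((Finset.range (b a)).filter (fun k => p (a, k))).card) := by
  have h1 := CI.bsum hp.ci hb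
  have h2 : (fun a => ((Finset.range (b a)).filter (fun k => p (a, k))).card) =
      (fun a => ∑ k ∈ Finset.range (b a), if p (a, k) then 1 else 0) := by
    funext a
    rw [Finset.card_filter]
  rw [h2]; exact h1

theorem DI.bex {p : α × ℕ → Prop} {b : α → ℕ} (hp : DI O p) (hb : CI O b) :
    DI O (fun a => ∃ k < b a, p (a, k)) := by
  classical
  have h1 := CI.count hp hb
  refine (DI.lt (CI.const 0) h1).of_iff ?_
  intro a
  rw [Finset.card_pos]
  constructor
  · rintro ⟨k, hk, hp⟩
    exact ⟨k, by simp [hk, hp]⟩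
  · rintro ⟨k, hk⟩
    simp only [Finset.mem_filter, Finset.mem_range] at hk
    exact ⟨k, hk.1, hk.2⟩

theorem DI.ball {p : α × ℕ → Prop} {b : α → ℕ} (hp : DI O p) (hb : CI O b) :
    DI O (fun a => ∀ k < b a, p (a, k)) := by
  refine (DI.not (DI.bex hp.not hb)).of_iff ?_
  intro a
  push Not
  rfl

theorem DI.imp {p q : α → Prop} (hp : DI O p) (hq : DI O q) : DI O (fun a => p a → q a) := by
  refine (DI.not (hp.and hq.not)).of_iff ?_
  intro a
  push Not
  rfl

theorem CI.log {b : ℕ} (hb : 1 < b) {f : α → ℕ} (hf : CI O f) : CI O (fun a => Nat.log b (f a)) := by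
  classical
  have h1 : DI O (fun p : α × ℕ => b ^ (p.2 + 1) ≤ f p.1) := by
    refine DI.le (CI.pow (CI.const b) (CI.of_computable ?_)) (hf.comp_computable Computable.fst)
    exact Computable.succ.comp Computable.snd
  have h2 := CI.count h1 hf
  have h3 : (fun a => Nat.log b (f a)) =
      (fun a => ((Finset.range (f a)).filter (fun k => b ^ (k + 1) ≤ f a)).card) := by
    funext a
    have : (Finset.range (f a)).filter (fun k => b ^ (k + 1) ≤ f a) = Finset.range (Nat.log b (f a)) := by
      ext k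
      simp only [Finset.mem_filter, Finset.mem_range]
      constructor
      · rintro ⟨hk, h⟩
        have h0 : f a ≠ 0 := by omega
        exact (Nat.le_log_iff_pow_le hb h0).2 h
      · intro hk
        have h0 : f a ≠ 0 := by
          intro h0; rw [h0] at hk; simp at hk
        have h4 := (Nat.le_log_iff_pow_le hb h0).1 (show k + 1 ≤ Nat.log b (f a) from hk)
        refine ⟨?_, h4⟩
        have h5 : k + 1 < b ^ (k + 1) := Nat.lt_pow_self hb
        omega
    rw [this, Finset.card_range]
  rw [h3]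
  exact h2

end Pool.Agent.GammaZero
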