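import Pool.Agent.Lib.MP_349b57_lc.Cases

set_option autoImplicit false

namespace Pool.Agent.GammaZero

open Finset

variable {O : Set (ℕ →. ℕ)}

def zb (Z : ℕ → Bool) (n : ℕ) : ℕ := if Z n then 1 else 0

/-- number of agreements of `Z` on the block of level `n` with the `i`-th codeword -/
def agr (Z : ℕ → Bool) (cd : ℕ → ℕ) (n i : ℕ) : ℕ :=
  ((range (2 ^ (n + 4))).filter
    (fun q => zb Z (2 ^ (n + 4) + q) = bt (cd n) (i * 2 ^ (n + 4) + q))).card

def dec (Z : ℕ → Bool) (cd : ℕ → ℕ) (n : ℕ) : ℕ :=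
  ∑ i ∈ range (2 ^ (2 ^ (n + 1))), (if 2 * agr Z cd n i < 2 ^ n then 1 else 0) * i

theorem ci_agr {Z : ℕ → Bool} {cd : ℕ → ℕ} (hZ : CI O (zb Z)) (hcd : CI O cd) :
    CI O (fun p : ℕ × ℕ => agr Z cd p.1 p.2) := by
  have hn : CI O (fun p : (ℕ × ℕ) × ℕ => p.1.1) :=
    CI.of_computable (Computable.fst.comp Computable.fst)
  have hi : CI O (fun p : (ℕ × ℕ) × ℕ => p.1.2) :=
    CI.of_computable (Computable.snd.comp Computable.fst)
  have hq : CI O (fun p : (ℕ × ℕ) × ℕ => p.2) := CI.of_computable Computable.snd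
  have hl : CI O (fun p : (ℕ × ℕ) × ℕ => 2 ^ (p.1.1 + 4)) := CI.pow (CI.const 2) (CI.add hn (CI.const 4))
  have h1 : DI O (fun p : (ℕ × ℕ) × ℕ =>
      zb Z (2 ^ (p.1.1 + 4) + p.2) = bt (cd p.1.1) (p.1.2 * 2 ^ (p.1.1 + 4) + p.2)) :=
    DI.eq (CI.comp hZ (CI.add hl hq)) (CI.bt (CI.comp hcd hn) (CI.add (CI.mul hi hl) hq))
  exact CI.count h1 (b := fun p : ℕ × ℕ => 2 ^ (p.1 + 4))
    (CI.pow (CI.const 2) (CI.add (CI.of_computable Computable.fst) (CI.const 4)))

theorem ci_dec {Z : ℕ → Bool} {cd : ℕ → ℕ} (hZ : CI O (zb Z)) (hcd : CI O cd) :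
    CI O (dec Z cd) := by
  have hn : CI O (fun p : ℕ × ℕ => p.1) := CI.of_computable Computable.fst
  have hi : CI O (fun p : ℕ × ℕ => p.2) := CI.of_computable Computable.snd
  have h1 : DI O (fun p : ℕ × ℕ => 2 * agr Z cd p.1 p.2 < 2 ^ p.1) :=
    DI.lt (CI.mul (CI.const 2) (ci_agr hZ hcd)) (CI.pow (CI.const 2) hn)
  have h2 := CI.mul h1.ci hi
  exact CI.bsum h2 (b := fun n : ℕ => 2 ^ (2 ^ (n + 1)))
    (CI.pow (CI.const 2) (CI.pow (CI.const 2) (CI.add (CI.of_computable Computable.id) (CI.const 1))))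

theorem zb_lt (Z : ℕ → Bool) (n : ℕ) : zb Z n < 2 := by
  unfold zb; split_ifs <;> norm_num

theorem dist_le_agr {Z : ℕ → Bool} {cd : ℕ → ℕ} (n i j : ℕ) :
    ((range (2 ^ (n + 4))).filter
      (fun q => bt (cd n) (i * 2 ^ (n + 4) + q) ≠ bt (cd n) (j * 2 ^ (n + 4) + q))).card
      ≤ agr Z cd n i + agr Z cd n j := by
  unfold agr
  refine le_trans (Finset.card_le_card ?_) (Finset.card_union_le _ _)
  intro q hq
  simp only [Finset.mem_filter, Finset.mem_range, Finset.mem_union] at hq ⊢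
  have h1 := zb_lt Z (2 ^ (n + 4) + q)
  have h2 := bt_lt (cd n) (i * 2 ^ (n + 4) + q)
  have h3 := bt_lt (cd n) (j * 2 ^ (n + 4) + q)
  have h4 := hq.2
  have : zb Z (2 ^ (n + 4) + q) = bt (cd n) (i * 2 ^ (n + 4) + q) ∨
      zb Z (2 ^ (n + 4) + q) = bt (cd n) (j * 2 ^ (n + 4) + q) := by omega
  rcases this with h | h
  · left; exact ⟨hq.1, h⟩
  · right; exact ⟨hq.1, h⟩

theorem dec_eq {Z : ℕ → Bool} {cd : ℕ → ℕ} {n v : ℕ} (hcd : CodeProp n (cd n))
    (hv : v < 2 ^ (2 ^ (n + 1))) (h : 4 * agr Z cd n v < 2 ^ n) : dec Z cd n = v := by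
  unfold dec
  rw [Finset.sum_eq_single v]
  · rw [if_pos (by omega), one_mul]
  · intro i hi hiv
    rw [Finset.mem_range] at hi
    have hd := dist_le_agr (Z := Z) (cd := cd) n i v
    have hd2 := dist_le_agr (Z := Z) (cd := cd) n v i
    have : 2 ^ n ≤ agr Z cd n i + agr Z cd n v := by
      rcases lt_or_gt_of_ne hiv with hlt | hgt
      · have := hcd v hv i hlt
        omega
      · have := hcd i hi v hgt
        omega
    rw [if_neg (by omega), zero_mul]
  · intro hv'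
    exact absurd (Finset.mem_range.2 hv) hv'

/-- the computable set attached to a computable message sequence -/
def msgSet (cd g : ℕ → ℕ) (x : ℕ) : Bool :=
  decide (bt (cd (Nat.log 2 x - 4)) (g (Nat.log 2 x - 4) * 2 ^ Nat.log 2 x + (x - 2 ^ Nat.log 2 x)) = 1)

theorem computable_msgSet {cd g : ℕ → ℕ} (hcd : Computable cd) (hg : Computable g) :
    Computable (msgSet cd g) := by
  have hlog : CI ∅ (fun x : ℕ => Nat.log 2 x) := CI.log (by norm_num) (CI.of_computable Computable.id)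
  have hx : CI ∅ (fun x : ℕ => x) := CI.of_computable Computable.id
  have hlog4 := CI.tsub hlog (CI.const 4)
  have hcd' : CI ∅ cd := CI.of_computable hcd
  have hg' : CI ∅ g := CI.of_computable hg
  have h1 := CI.bt (CI.comp hcd' hlog4)
    (CI.add (CI.mul (CI.comp hg' hlog4) (CI.pow (CI.const 2) hlog))
      (CI.tsub hx (CI.pow (CI.const 2) hlog)))
  have h2 := computable_of_CI h1
  have h3 : Computable (fun n : ℕ => decide (n = 1)) := by
    have : Primrec (fun n : ℕ => (n == 1)) := Primrec.beq.comp Primrec.id (Primrec.const 1)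
    refine this.to_comp.of_eq ?_
    intro n
    by_cases h : n = 1 <;> simp [h]
  exact h3.comp h2

theorem exists_ioe {Z : ℕ → Bool} {cd : ℕ → ℕ} (hcd : Computable cd) (hcode : ∀ n, CodeProp n (cd n))
    (hZ : ∀ C : ℕ → Bool, Computable C → Filter.liminf (dens Z C) Filter.atTop ≤ 1 / 512)
    (g : ℕ → ℕ) (hg : Computable g) (hglt : ∀ n, g n < 2 ^ (2 ^ (n + 1))) (N : ℕ) :
    ∃ n ≥ N, dec Z cd n = g n := by
  have h1 := hZ _ (computable_msgSet hcd hg)
  have h2 : ∃ᶠ n in Filter.atTop, dens Z (msgSet cd g) n < 1 / 256 := by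
    apply Filter.frequently_lt_of_liminf_lt
    · exact (Filter.isBoundedUnder_of ⟨1, fun n => dens_le_one Z _ n⟩).isCoboundedUnder_ge
    · refine lt_of_le_of_lt h1 (by norm_num)
  rw [Filter.frequently_atTop] at h2
  obtain ⟨M, hM, hlt⟩ := h2 (2 ^ (N + 5))
  have hMpos : 0 < M := lt_of_lt_of_le (by positivity) hM
  have hM0 : M ≠ 0 := by omega
  set L := Nat.log 2 M with hL
  have hLN : N + 5 ≤ L := (Nat.le_log_iff_pow_le (by norm_num) hM0).2 hM
  have hM1 : 2 ^ L ≤ M := Nat.pow_log_le_self 2 hM0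
  have hM2 : M < 2 ^ (L + 1) := Nat.lt_pow_succ_log_self (by norm_num) M
  obtain ⟨n, hn⟩ : ∃ n, L = n + 5 := ⟨L - 5, by omega⟩
  rw [hn] at hM1 hM2
  refine ⟨n, by omega, ?_⟩
  apply dec_eq (hcode n) (hglt n)
  -- count
  have hcount : 256 * ((Finset.range M).filter (fun k => Z k = msgSet cd g k)).card < M := by
    unfold dens at hlt
    have hMr : (0 : ℝ) < M := by exact_mod_cast hMpos
    rw [div_lt_iff₀ hMr] at hlt
    have h3 : (256 : ℝ) * (((Finset.range M).filter (fun k => Z k = msgSet cd g k)).card : ℝ) < M := by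
      linarith
    exact_mod_cast h3
  have hle : agr Z cd n (g n) ≤ ((Finset.range M).filter (fun k => Z k = msgSet cd g k)).card := by
    unfold agr
    refine Finset.card_le_card_of_injOn (fun q => 2 ^ (n + 4) + q) ?_ ?_
    · intro q hq
      simp only [Finset.coe_filter, Finset.mem_range, Set.mem_ofPred_eq] at hq ⊢
      have h5 : 2 ^ (n + 5) = 2 ^ (n + 4) + 2 ^ (n + 4) := by rw [pow_succ]; ring
      refine ⟨by omega, ?_⟩
      have hlog : Nat.log 2 (2 ^ (n + 4) + q) = n + 4 := by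
        refine (Nat.log_eq_iff (Or.inr ⟨by norm_num, by
          have : 0 < 2 ^ (n + 4) := by positivity
          omega⟩)).2 ⟨by omega, ?_⟩
        rw [show n + 4 + 1 = n + 5 from rfl]; omega
      have hz := hq.2
      unfold msgSet
      rw [hlog]
      have e1 : n + 4 - 4 = n := by omega
      have e2 : 2 ^ (n + 4) + q - 2 ^ (n + 4) = q := by omega
      rw [e1, e2, ← hz]
      unfold zb
      cases Z (2 ^ (n + 4) + q) <;> simp
    · intro a _ b _ h
      simp only at h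
      omega
  have h6 : (2 : ℕ) ^ (n + 5 + 1) = 64 * 2 ^ n := by rw [pow_add, pow_add]; ring
  rw [h6] at hM2
  omega

end Pool.Agent.GammaZero
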