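import Pool.Agent.Lib.MP_349b57_lc.Codes

/-!
The windowed functional, the two cases, and the passage from small gamma value to
an infinitely often equal function.
-/

set_option autoImplicit false

namespace Pool.Agent.GammaZero

open Finset

/-- rank of a level among the selected levels of its group -/
noncomputable def rank (Sel : ℕ → Prop) (n : ℕ) : ℕ := by
  classical
  exact ((range n).filter (fun m => 4 ^ Nat.log 4 n ≤ m ∧ Sel m)).card

def tau (x : ℕ) : ℕ := Nat.log 4 (Nat.log 2 x) + 1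

def seg (x : ℕ) : ℕ := (Nat.log 2 x - 4 ^ (tau x - 1)) / 2 ^ (tau x - 2)

/-- the set computed from selected levels and their strings -/
def YP (Sel : ℕ → Prop) (S : ℕ → ℕ → Prop) (x : ℕ) : Prop :=
  ∃ n < 4 ^ (tau x + 1), 4 ^ tau x ≤ n ∧ Sel n ∧ rank Sel n = seg x ∧ S n x

theorem log4_of_mem {n τ : ℕ} (h1 : 4 ^ τ ≤ n) (h2 : n < 4 ^ (τ + 1)) : Nat.log 4 n = τ :=
  (Nat.log_eq_iff (Or.inr ⟨by norm_num, by
    have : 0 < 4 ^ τ := by positivity
    omega⟩)).2 ⟨h1, h2⟩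

theorem rank_inj {Sel : ℕ → Prop} {n m τ : ℕ} (hn : 4 ^ τ ≤ n) (hn2 : n < 4 ^ (τ + 1))
    (hm : 4 ^ τ ≤ m) (hm2 : m < 4 ^ (τ + 1)) (hSn : Sel n) (hSm : Sel m)
    (h : rank Sel n = rank Sel m) : n = m := by
  classical
  have key : ∀ a b : ℕ, 4 ^ τ ≤ a → a < 4 ^ (τ + 1) → 4 ^ τ ≤ b → b < 4 ^ (τ + 1) →
      Sel a → a < b → rank Sel a < rank Sel b := by
    intro a b ha ha2 hb hb2 hSa hab
    unfold rank
    rw [log4_of_mem ha ha2, log4_of_mem hb hb2]
    apply Finset.card_lt_card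
    rw [Finset.ssubset_iff_of_subset]
    · refine ⟨a, ?_, ?_⟩
      · simp [hab, ha, hSa]
      · simp
    · intro x hx
      simp only [Finset.mem_filter, Finset.mem_range] at hx ⊢
      exact ⟨by omega, hx.2⟩
  rcases lt_trichotomy n m with hlt | heq | hgt
  · have := key n m hn hn2 hm hm2 hSn hlt; omega
  · exact heq
  · have := key m n hm hm2 hn hn2 hSm hgt; omega

/-- on the window attached to a selected level the set is given by that level's string -/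
theorem YP_window {Sel : ℕ → Prop} {S : ℕ → ℕ → Prop} {n τ x : ℕ} (hτ : 2 ≤ τ)
    (hn : 4 ^ τ ≤ n) (hn2 : n < 4 ^ (τ + 1)) (hSel : Sel n)
    (hr : rank Sel n < 3 * 2 ^ τ)
    (hx1 : 2 ^ (4 ^ (τ - 1) + rank Sel n * 2 ^ (τ - 2)) ≤ x)
    (hx2 : x < 2 ^ (4 ^ (τ - 1) + (rank Sel n + 1) * 2 ^ (τ - 2))) :
    YP Sel S x ↔ S n x := by
  obtain ⟨σ, rfl⟩ : ∃ σ, τ = σ + 2 := ⟨τ - 2, by omega⟩
  have e1 : σ + 2 - 1 = σ + 1 := by omega
  have e2 : σ + 2 - 2 = σ := by omega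
  rw [e1, e2] at hx1 hx2
  set r := rank Sel n with hrdef
  have hx0 : x ≠ 0 := by
    have : 0 < 2 ^ (4 ^ (σ + 1) + r * 2 ^ σ) := by positivity
    omega
  have hj1 : 4 ^ (σ + 1) + r * 2 ^ σ ≤ Nat.log 2 x := (Nat.le_log_iff_pow_le (by norm_num) hx0).2 hx1
  have hj2 : Nat.log 2 x < 4 ^ (σ + 1) + (r + 1) * 2 ^ σ := (Nat.log_lt_iff_lt_pow (by norm_num) hx0).2 hx2
  have h4 : (4 : ℕ) ^ (σ + 1) = 4 * (2 ^ σ * 2 ^ σ) := by
    rw [pow_succ, ← mul_pow]; ring
  have h4' : (4 : ℕ) ^ (σ + 2) = 16 * (2 ^ σ * 2 ^ σ) := by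
    rw [pow_succ, h4]; ring
  have h2' : (2 : ℕ) ^ (σ + 2) = 4 * 2 ^ σ := by rw [pow_add]; ring
  have hr' : (r + 1) * 2 ^ σ ≤ 12 * (2 ^ σ * 2 ^ σ) := by
    have : r + 1 ≤ 12 * 2 ^ σ := by rw [h2'] at hr; omega
    calc (r + 1) * 2 ^ σ ≤ (12 * 2 ^ σ) * 2 ^ σ := Nat.mul_le_mul_right _ this
      _ = _ := by ring
  have hlog : Nat.log 4 (Nat.log 2 x) = σ + 1 := by
    apply log4_of_mem
    · omega
    · rw [h4']; omega
  have htau : tau x = σ + 2 := by unfold tau; rw [hlog]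
  have hseg : seg x = r := by
    unfold seg
    rw [htau, e1, e2]
    have : Nat.log 2 x - 4 ^ (σ + 1) = (Nat.log 2 x - 4 ^ (σ + 1) - r * 2 ^ σ) + r * 2 ^ σ := by omega
    rw [this, Nat.add_mul_div_right _ _ (by positivity), Nat.div_eq_of_lt, zero_add]
    have : (r + 1) * 2 ^ σ = r * 2 ^ σ + 2 ^ σ := by ring
    omega
  unfold YP
  rw [htau, hseg]
  constructor
  · rintro ⟨m, hm2, hm, hSm, hrm, hS⟩
    have : m = n := rank_inj hm hm2 hn hn2 hSm hSel hrm
    rw [← this]; exact hS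
  · intro hS
    exact ⟨n, hn2, hn, hSel, rfl, hS⟩

theorem window_count {Sel : ℕ → Prop} {S : ℕ → ℕ → Prop} {n τ : ℕ} (hτ : 2 ≤ τ)
    (hn : 4 ^ τ ≤ n) (hn2 : n < 4 ^ (τ + 1)) (hSel : Sel n)
    (hr : rank Sel n < 3 * 2 ^ τ) (Y C : ℕ → Bool) (hY : ∀ x, Y x = true ↔ YP Sel S x)
    (hC : ∀ x < 2 ^ (4 ^ τ), S n x ↔ C x = false) :
    ((range (2 ^ (4 ^ (τ - 1) + (rank Sel n + 1) * 2 ^ (τ - 2)))).filter
      (fun x => Y x = C x)).card ≤ 2 ^ (4 ^ (τ - 1) + rank Sel n * 2 ^ (τ - 2)) := by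
  have hsub : (range (2 ^ (4 ^ (τ - 1) + (rank Sel n + 1) * 2 ^ (τ - 2)))).filter
      (fun x => Y x = C x) ⊆ range (2 ^ (4 ^ (τ - 1) + rank Sel n * 2 ^ (τ - 2))) := by
    intro x hx
    simp only [Finset.mem_filter, Finset.mem_range] at hx ⊢
    by_contra hcon
    push Not at hcon
    have h1 := YP_window (S := S) hτ hn hn2 hSel hr hcon hx.1
    have hxb : x < 2 ^ (4 ^ τ) := by
      refine lt_of_lt_of_le hx.1 (Nat.pow_le_pow_right (by norm_num) ?_)
      obtain ⟨σ, rfl⟩ : ∃ σ, τ = σ + 2 := ⟨τ - 2, by omega⟩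
      have e1 : σ + 2 - 1 = σ + 1 := by omega
      have e2 : σ + 2 - 2 = σ := by omega
      rw [e1, e2]
      have h4 : (4 : ℕ) ^ (σ + 1) = 4 * (2 ^ σ * 2 ^ σ) := by
        rw [pow_succ, ← mul_pow]; ring
      have h4' : (4 : ℕ) ^ (σ + 2) = 16 * (2 ^ σ * 2 ^ σ) := by
        rw [pow_succ, h4]; ring
      have h2' : (2 : ℕ) ^ (σ + 2) = 4 * 2 ^ σ := by rw [pow_add]; ring
      have hr' : (rank Sel n + 1) * 2 ^ σ ≤ 12 * (2 ^ σ * 2 ^ σ) := by
        have : rank Sel n + 1 ≤ 12 * 2 ^ σ := by rw [h2'] at hr; omega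
        calc (rank Sel n + 1) * 2 ^ σ ≤ (12 * 2 ^ σ) * 2 ^ σ := Nat.mul_le_mul_right _ this
          _ = _ := by ring
      rw [h4, h4']; omega
    have h2 := hC x hxb
    have h3 := hY x
    rw [h1, h2, hx.2] at h3
    cases h : C x <;> simp [h] at h3
  refine le_trans (Finset.card_le_card hsub) ?_
  simp

/-- density value -/
noncomputable def dens (Y C : ℕ → Bool) (n : ℕ) : ℝ :=
  (((Finset.range n).filter (fun k => Y k = C k)).card : ℝ) / (n : ℝ)

theorem dens_nonneg (Y C : ℕ → Bool) (n : ℕ) : 0 ≤ dens Y C n := by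
  unfold dens; positivity

theorem dens_le_one (Y C : ℕ → Bool) (n : ℕ) : dens Y C n ≤ 1 := by
  unfold dens
  apply div_le_one_of_le₀
  · have := Finset.card_filter_le (Finset.range n) (fun k => Y k = C k)
    rw [Finset.card_range] at this
    exact_mod_cast this
  · positivity

theorem liminf_zero {Y C : ℕ → Bool}
    (h : ∀ k N : ℕ, ∃ n ≥ N, 2 ^ k * ((Finset.range n).filter (fun x => Y x = C x)).card ≤ n) :
    Filter.liminf (dens Y C) Filter.atTop = 0 := by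
  apply le_antisymm
  · apply le_of_forall_pos_le_add
    intro ε hε
    rw [zero_add]
    obtain ⟨k, hk⟩ := exists_pow_lt_of_lt_one hε (show (1 / 2 : ℝ) < 1 by norm_num)
    apply Filter.liminf_le_of_frequently_le
    · rw [Filter.frequently_atTop]
      intro N
      obtain ⟨n, hn, hcard⟩ := h k (N + 1)
      refine ⟨n, by omega, ?_⟩
      have hnpos : (0 : ℝ) < n := by
        have : 0 < n := by omega
        exact_mod_cast this
      unfold dens
      rw [div_le_iff₀ hnpos]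
      have h1 : (2 : ℝ) ^ k * (((Finset.range n).filter (fun x => Y x = C x)).card : ℝ) ≤ n := by
        exact_mod_cast hcard
      have h2 : (((Finset.range n).filter (fun x => Y x = C x)).card : ℝ) ≤ (1 / 2) ^ k * n := by
        have h3 : (1 / 2 : ℝ) ^ k * 2 ^ k = 1 := by
          rw [← mul_pow]; norm_num
        have h4 : (0 : ℝ) < (1 / 2) ^ k := by positivity
        calc (((Finset.range n).filter (fun x => Y x = C x)).card : ℝ)
            = (1 / 2) ^ k * (2 ^ k * (((Finset.range n).filter (fun x => Y x = C x)).card : ℝ)) := by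
              rw [← mul_assoc, h3, one_mul]
          _ ≤ (1 / 2) ^ k * n := mul_le_mul_of_nonneg_left h1 h4.le
      refine le_trans h2 ?_
      exact mul_le_mul_of_nonneg_right hk.le hnpos.le
    · exact Filter.isBoundedUnder_of ⟨0, fun n => dens_nonneg Y C n⟩
  · apply Filter.le_liminf_of_le
    · exact (Filter.isBoundedUnder_of ⟨1, fun n => dens_le_one Y C n⟩).isCoboundedUnder_ge
    · exact Filter.Eventually.of_forall (fun n => dens_nonneg Y C n)

/-- from infinitely many good levels to lower density zero -/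
theorem liminf_of_levels {Sel : ℕ → Prop} {S : ℕ → ℕ → Prop} {Y C : ℕ → Bool}
    (hY : ∀ x, Y x = true ↔ YP Sel S x)
    (h : ∀ T, ∃ n, T ≤ Nat.log 4 n ∧ Sel n ∧ rank Sel n < 3 * 2 ^ (Nat.log 4 n) ∧
      ∀ x < 2 ^ (4 ^ Nat.log 4 n), S n x ↔ C x = false) :
    Filter.liminf (dens Y C) Filter.atTop = 0 := by
  apply liminf_zero
  intro k N
  obtain ⟨n, hT, hSel, hr, hC⟩ := h (k + N + 2)
  set τ := Nat.log 4 n with hτdef
  have hn0 : n ≠ 0 := by
    intro h0
    rw [h0] at hτdef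
    simp at hτdef
    omega
  have hn : 4 ^ τ ≤ n := Nat.pow_log_le_self 4 hn0
  have hn2 : n < 4 ^ (τ + 1) := Nat.lt_pow_succ_log_self (by norm_num) n
  have hcount := window_count (by omega) hn hn2 hSel hr Y C hY hC
  refine ⟨2 ^ (4 ^ (τ - 1) + (rank Sel n + 1) * 2 ^ (τ - 2)), ?_, ?_⟩
  · have h1 : N < 4 ^ (τ - 1) := lt_of_lt_of_le (show N < 4 ^ N from Nat.lt_pow_self (by norm_num))
      (Nat.pow_le_pow_right (by norm_num) (by omega))
    have h2 : 4 ^ (τ - 1) < 2 ^ (4 ^ (τ - 1)) := Nat.lt_pow_self (by norm_num)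
    have h3 : 2 ^ (4 ^ (τ - 1)) ≤ 2 ^ (4 ^ (τ - 1) + (rank Sel n + 1) * 2 ^ (τ - 2)) :=
      Nat.pow_le_pow_right (by norm_num) (by omega)
    omega
  · refine le_trans (Nat.mul_le_mul_left _ hcount) ?_
    rw [← pow_add]
    apply Nat.pow_le_pow_right (by norm_num)
    have h1 : k ≤ 2 ^ (τ - 2) := le_trans (show k ≤ 2 ^ k from (Nat.lt_pow_self (by norm_num)).le)
      (Nat.pow_le_pow_right (by norm_num) (by omega))
    have h2 : (rank Sel n + 1) * 2 ^ (τ - 2) = rank Sel n * 2 ^ (τ - 2) + 2 ^ (τ - 2) := by ring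
    omega

end Pool.Agent.GammaZero
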